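import Pool.Agent.J4H28.YO.Wh

set_option autoImplicit false
set_option linter.unusedSectionVars false

/-! # Leading forms with a non-exact differential form -/

namespace Pool.Agent.J4H28.YO

open Pool.Agent.J4H50.YO Pool.Agent.J4H50.TF MvPowerSeries

section ne

variable {σ : Type} [Fintype σ]

/-- the field of rational functions -/
abbrev KK (σ : Type) : Type := FractionRing (MvPolynomial σ ℂ)

/-- `q / f0 ^ k` -/
noncomputable def TT (f0 : MvPolynomial σ ℂ) (k : ℕ) : MvPolynomial σ ℂ →ₗ[ℂ] KK σ :=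
  (LinearMap.mulLeft ℂ ((algebraMap (MvPolynomial σ ℂ) (KK σ) f0 ^ k)⁻¹)).comp
    (IsScalarTower.toAlgHom ℂ (MvPolynomial σ ℂ) (KK σ)).toLinearMap

theorem TT_apply (f0 : MvPolynomial σ ℂ) (k : ℕ) (q : MvPolynomial σ ℂ) :
    TT f0 k q = (algebraMap (MvPolynomial σ ℂ) (KK σ) f0 ^ k)⁻¹ * algebraMap _ (KK σ) q := rfl

theorem alg_ne {f0 : MvPolynomial σ ℂ} (h : f0 ≠ 0) :
    algebraMap (MvPolynomial σ ℂ) (KK σ) f0 ≠ 0 := by
  intro h1
  apply h
  rw [← map_zero (algebraMap (MvPolynomial σ ℂ) (KK σ))] at h1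
  exact IsFractionRing.injective (MvPolynomial σ ℂ) (KK σ) h1

theorem TT_succ {f0 : MvPolynomial σ ℂ} (h : f0 ≠ 0) (k : ℕ) (q : MvPolynomial σ ℂ) :
    TT f0 (k + 1) (f0 * q) = TT f0 k q := by
  have h1 := alg_ne h
  rw [TT_apply, TT_apply, map_mul]
  field_simp
  ring

/-- the exact forms -/
noncomputable def ex (f0 : MvPolynomial σ ℂ) (s : ℂ) (m : ℕ) :
    (σ → MvPolynomial σ ℂ) →ₗ[ℂ] KK σ :=
  ∑ i, ((TT f0 m).comp (MvPolynomial.pderiv i).toLinearMap +
    (s - m) • (TT f0 (m + 1)).comp (LinearMap.mulLeft ℂ (MvPolynomial.pderiv i f0))).comp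
      (LinearMap.proj i)

theorem ex_apply (f0 : MvPolynomial σ ℂ) (s : ℂ) (m : ℕ) (η : σ → MvPolynomial σ ℂ) :
    ex f0 s m η = ∑ i, (TT f0 m (MvPolynomial.pderiv i (η i)) +
      (s - m) • TT f0 (m + 1) (MvPolynomial.pderiv i f0 * η i)) := by
  rw [ex, LinearMap.sum_apply]
  rfl

theorem ex_single [DecidableEq σ] (f0 : MvPolynomial σ ℂ) (s : ℂ) (m : ℕ) (i : σ)
    (q : MvPolynomial σ ℂ) :
    ex f0 s m (Pi.single i q) = TT f0 m (MvPolynomial.pderiv i q) +
      (s - m) • TT f0 (m + 1) (MvPolynomial.pderiv i f0 * q) := by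
  rw [ex_apply, Finset.sum_eq_single i]
  · rw [Pi.single_eq_same]
  · intro j _ hj
    rw [Pi.single_eq_of_ne hj, map_zero, map_zero, mul_zero, map_zero, smul_zero, add_zero]
  · intro h
    exact absurd (Finset.mem_univ i) h

theorem ex_succ {f0 : MvPolynomial σ ℂ} (h : f0 ≠ 0) (s : ℂ) (m : ℕ) (η : σ → MvPolynomial σ ℂ) :
    ex f0 s (m + 1) (fun i => f0 * η i) = ex f0 s m η := by
  rw [ex_apply, ex_apply]
  refine Finset.sum_congr rfl fun i _ => ?_
  have h1 : MvPolynomial.pderiv i (f0 * η i) =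
      f0 * MvPolynomial.pderiv i (η i) + MvPolynomial.pderiv i f0 * η i := by
    rw [MvPolynomial.pderiv_mul]
    ring
  have h2 : MvPolynomial.pderiv i f0 * (f0 * η i) = f0 * (MvPolynomial.pderiv i f0 * η i) := by
    ring
  rw [h1, h2, map_add, TT_succ h, TT_succ h]
  have h3 : s - ((m + 1 : ℕ) : ℂ) = (s - m) - 1 := by push_cast; ring
  rw [h3, sub_smul, one_smul]
  abel

end ne

theorem t_NE : S_NE := by
  intro σ _ _ d f0 R hd hf hf0 hR hne
  classical
  set s : ℂ := -((Fintype.card σ : ℕ) : ℂ) / d with hs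
  let E : Submodule ℂ (KK σ) := ⨆ m, LinearMap.range (ex f0 s m)
  have hmono : Monotone fun m => LinearMap.range (ex f0 s m) := by
    refine monotone_nat_of_le_succ fun m => ?_
    rintro _ ⟨η, rfl⟩
    exact ⟨_, ex_succ hf0 s m η⟩
  have h1 : (1 : KK σ) ∉ E := by
    intro hcon
    obtain ⟨m, η, hη⟩ := (Submodule.mem_iSup_of_directed _ hmono.directed_le).1 hcon
    apply hne m η
    apply IsFractionRing.injective (MvPolynomial σ ℂ) (KK σ)
    have h2 := alg_ne hf0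
    rw [ex_apply] at hη
    have h3 := congrArg (fun x => algebraMap (MvPolynomial σ ℂ) (KK σ) f0 ^ (m + 1) * x) hη
    simp only [mul_one] at h3
    rw [map_pow, ← h3, map_sum, Finset.mul_sum]
    refine Finset.sum_congr rfl fun i _ => ?_
    rw [TT_apply, TT_apply, map_add, map_mul, map_mul, map_mul, Algebra.smul_def]
    have h4 : algebraMap ℂ (KK σ) (s - m) =
        algebraMap (MvPolynomial σ ℂ) (KK σ) (MvPolynomial.C (s - m)) :=
      IsScalarTower.algebraMap_apply ℂ (MvPolynomial σ ℂ) (KK σ) _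
    rw [h4]
    field_simp
    ring
  obtain ⟨L, l1, l2⟩ := Submodule.exists_le_ker_of_notMem h1
  have hL : ∀ m η, L (ex f0 s m η) = 0 := fun m η =>
    l2 (Submodule.mem_iSup_of_mem m ⟨η, rfl⟩)
  refine NV_of_wh (w := fun _ => 1) (fun _ => one_pos) (D := d) f0 hf R hR s
    (fun k => (L 1)⁻¹ • L.comp (TT f0 k)) ?_ ?_ ?_
  · intro k q _
    change (L 1)⁻¹ • L (TT f0 (k + 1) (f0 * q)) = (L 1)⁻¹ • L (TT f0 k q)
    rw [TT_succ hf0]
  · intro k i q _
    change (L 1)⁻¹ • L (TT f0 k (MvPolynomial.pderiv i q)) +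
      (s - k) * ((L 1)⁻¹ • L (TT f0 (k + 1) (MvPolynomial.pderiv i f0 * q))) = 0
    have h2 := hL k (Pi.single i q)
    rw [ex_single, map_add, map_smul, smul_eq_mul] at h2
    rw [smul_eq_mul, smul_eq_mul]
    linear_combination (L 1)⁻¹ * h2
  · change (L 1)⁻¹ • L (TT f0 0 1) = 1
    rw [TT_apply, pow_zero, inv_one, one_mul, map_one (algebraMap _ (KK σ)), smul_eq_mul,
      inv_mul_cancel₀ l1]

end Pool.Agent.J4H28.YO
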