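import Pool.Agent.J4H50.YO.Stm

set_option autoImplicit false

/-! # Perturbation of de Rham functionals -/

namespace Pool.Agent.J4H28.YO

open Pool.Agent.J4H50.YO MvPowerSeries

theorem cb_zero (a : ℂ) : cb a 0 = 1 := by simp [cb]

theorem cb_succ (a : ℂ) (i : ℕ) : cb a (i + 1) * (i + 1) = cb a i * (a - i) := by
  unfold cb
  rw [Finset.prod_range_succ, Nat.factorial_succ]
  have h1 : ((i : ℂ) + 1) ≠ 0 := Nat.cast_add_one_ne_zero i
  have h2 : ((i.factorial : ℕ) : ℂ) ≠ 0 := Nat.cast_ne_zero.2 i.factorial_ne_zero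
  push_cast
  field_simp

theorem cb_mul (a : ℂ) (i : ℕ) : cb a i * (a - i) = a * cb (a - 1) i := by
  unfold cb
  have h1 : (∏ j ∈ Finset.range i, (a - j)) * (a - i) = a * ∏ j ∈ Finset.range i, (a - 1 - j) := by
    rw [← Finset.prod_range_succ, Finset.prod_range_succ', Nat.cast_zero, sub_zero, mul_comm]
    congr 1
    refine Finset.prod_congr rfl fun j _ => ?_
    push_cast
    ring
  rw [div_mul_eq_mul_div, h1, mul_div_assoc]

theorem cb_mul' (a : ℂ) (i : ℕ) : cb a (i + 1) * (i + 1) = a * cb (a - 1) i := by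
  rw [cb_succ, cb_mul]

theorem cb_pascal (a : ℂ) (i : ℕ) : cb (a - 1) (i + 1) + cb (a - 1) i = cb a (i + 1) := by
  have h1 : ((i : ℂ) + 1) ≠ 0 := Nat.cast_add_one_ne_zero i
  apply mul_right_cancel₀ h1
  rw [cb_mul', add_mul, cb_succ]
  ring

section

variable {σ : Type} {F R : MvPowerSeries σ ℂ} {s : ℂ} {β : ℕ → MvPowerSeries σ ℂ →ₗ[ℂ] ℂ}

/-- the partial sums -/
noncomputable def pS (R : MvPowerSeries σ ℂ) (s : ℂ) (β : ℕ → MvPowerSeries σ ℂ →ₗ[ℂ] ℂ) (k J : ℕ) :
    MvPowerSeries σ ℂ →ₗ[ℂ] ℂ :=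
  ∑ i ∈ Finset.range J, cb (s - k) i • (β (k + i)).comp (LinearMap.mulLeft ℂ (R ^ i))

theorem pS_apply (k J : ℕ) (q : MvPowerSeries σ ℂ) :
    pS R s β k J q = ∑ i ∈ Finset.range J, cb (s - k) i * β (k + i) (R ^ i * q) := by
  rw [pS, LinearMap.sum_apply]
  rfl

theorem pS_eq {k I : ℕ} (h : ∀ i, I ≤ i → ∀ q, β (k + i) (R ^ i * q) = 0) {J : ℕ} (hJ : I ≤ J)
    (q : MvPowerSeries σ ℂ) : pS R s β k J q = pS R s β k I q := by
  rw [pS_apply, pS_apply]
  symm
  refine Finset.sum_subset (Finset.range_mono hJ) fun i _ hi => ?_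
  rw [Finset.mem_range, not_lt] at hi
  rw [h i hi, mul_zero]

theorem low_mul {N : ℕ} {q : MvPowerSeries σ ℂ} (h : ∀ x : σ →₀ ℕ, x.degree < N → coeff x q = 0)
    (r : MvPowerSeries σ ℂ) (x : σ →₀ ℕ) (hx : x.degree < N) : coeff x (r * q) = 0 := by
  classical
  rw [coeff_mul]
  refine Finset.sum_eq_zero fun p hp => ?_
  rw [Finset.HasAntidiagonal.mem_antidiagonal] at hp
  rw [h p.2, mul_zero]
  have h1 : x.degree = p.1.degree + p.2.degree := by rw [← hp, map_add]
  omega

end

theorem t_PT : S_PT := by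
  intro σ F R s β h hI
  choose I hI using hI
  have key : ∀ k J, I k ≤ J → ∀ q, pS R s β k J q = pS R s β k (I k) q := fun k J hJ q =>
    pS_eq (hI k) hJ q
  refine ⟨fun k => pS R s β k (I k), ⟨?_, ?_, ?_⟩, ?_⟩
  · intro k
    choose N hN using h.cts
    refine ⟨∑ i ∈ Finset.range (I k), N (k + i), fun q hq => ?_⟩
    rw [pS_apply]
    refine Finset.sum_eq_zero fun i hi => ?_
    rw [hN (k + i) (R ^ i * q), mul_zero]
    intro x hx
    refine low_mul (N := N (k + i)) (fun y hy => hq y ?_) _ x hx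
    exact hy.trans_le (Finset.single_le_sum (f := fun i => N (k + i)) (fun _ _ => Nat.zero_le _) hi)
  · intro k q
    change pS R s β (k + 1) (I (k + 1)) ((F + R) * q) = pS R s β k (I k) q
    obtain ⟨J, hJ1, hJ2⟩ : ∃ J, I (k + 1) ≤ J ∧ I k ≤ J :=
      ⟨max (I (k + 1)) (I k), le_max_left _ _, le_max_right _ _⟩
    rw [← key (k + 1) J hJ1, ← key k (J + 1) (by omega), pS_apply, pS_apply]
    have e1 : ∀ i, β (k + 1 + i) (R ^ i * ((F + R) * q)) =
        β (k + i) (R ^ i * q) + β (k + (i + 1)) (R ^ (i + 1) * q) := by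
      intro i
      have e2 : R ^ i * ((F + R) * q) = F * (R ^ i * q) + R ^ (i + 1) * q := by ring
      have e3 : k + 1 + i = k + i + 1 := by ring
      rw [e2, map_add, e3, h.sft]
      rfl
    have e4 : s - ((k + 1 : ℕ) : ℂ) = s - (k : ℂ) - 1 := by push_cast; ring
    simp only [e1, e4, mul_add, Finset.sum_add_distrib]
    have e5 : ∑ i ∈ Finset.range J, cb (s - k - 1) i * β (k + i) (R ^ i * q) =
        ∑ i ∈ Finset.range (J + 1), cb (s - k - 1) i * β (k + i) (R ^ i * q) := by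
      rw [Finset.sum_range_succ, hI k J hJ2, mul_zero, add_zero]
    rw [e5, Finset.sum_range_succ', Finset.sum_range_succ', add_right_comm,
      ← Finset.sum_add_distrib, cb_zero, cb_zero]
    congr 1
    refine Finset.sum_congr rfl fun i _ => ?_
    rw [← add_mul, cb_pascal]
  · intro k m q
    change pS R s β k (I k) (pderiv ℂ m q) +
      (s - k) * pS R s β (k + 1) (I (k + 1)) (pderiv ℂ m (F + R) * q) = 0
    obtain ⟨J, hJ1, hJ2⟩ : ∃ J, I (k + 1) ≤ J ∧ I k ≤ J :=
      ⟨max (I (k + 1)) (I k), le_max_left _ _, le_max_right _ _⟩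
    have e4 : s - ((k + 1 : ℕ) : ℂ) = s - (k : ℂ) - 1 := by push_cast; ring
    rw [← key (k + 1) (J + 1) (by omega), ← key k (J + 1) (by omega), pS_apply, pS_apply, e4]
    have e1 : ∀ i : ℕ, β (k + i) (R ^ i * pderiv ℂ m q) =
        -((s - k - i) * β (k + 1 + i) (R ^ i * (pderiv ℂ m F * q))) -
          i * β (k + i) (R ^ (i - 1) * (pderiv ℂ m R * q)) := by
      intro i
      have e2 : pderiv ℂ m (R ^ i * q) = R ^ i * pderiv ℂ m q +
          (i : ℂ) • (R ^ (i - 1) * (pderiv ℂ m R * q)) := by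
        rw [Derivation.leibniz, Derivation.leibniz_pow]
        simp only [smul_eq_mul, nsmul_eq_mul]
        have e3 : (i : ℂ) • (R ^ (i - 1) * (pderiv ℂ m R * q)) =
            (i : MvPowerSeries σ ℂ) * (R ^ (i - 1) * (pderiv ℂ m R * q)) := by
          rw [Algebra.smul_def, map_natCast]
        rw [e3]
        ring
      have e3 := h.clo (k + i) m (R ^ i * q)
      have e5 : k + i + 1 = k + 1 + i := by ring
      have e6 : pderiv ℂ m F * (R ^ i * q) = R ^ i * (pderiv ℂ m F * q) := by ring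
      rw [e2, map_add, map_smul, smul_eq_mul, e5, e6] at e3
      push_cast at e3
      linear_combination e3
    have e7 : ∀ i, β (k + 1 + i) (R ^ i * (pderiv ℂ m (F + R) * q)) =
        β (k + 1 + i) (R ^ i * (pderiv ℂ m F * q)) +
          β (k + 1 + i) (R ^ i * (pderiv ℂ m R * q)) := by
      intro i
      rw [← map_add, map_add (pderiv ℂ m)]
      congr 1
      ring
    simp only [e1, e7]
    have e8 : ∑ i ∈ Finset.range (J + 1), cb (s - k) i *
        (i * β (k + i) (R ^ (i - 1) * (pderiv ℂ m R * q))) =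
        (s - k) * ∑ i ∈ Finset.range (J + 1), cb (s - k - 1) i *
          β (k + 1 + i) (R ^ i * (pderiv ℂ m R * q)) := by
      rw [Finset.sum_range_succ', Finset.sum_range_succ, hI (k + 1) J hJ1]
      simp only [Nat.cast_zero, zero_mul, mul_zero, add_zero, Finset.mul_sum]
      refine Finset.sum_congr rfl fun i _ => ?_
      have e9 : k + (i + 1) = k + 1 + i := by ring
      rw [e9, ← mul_assoc, Nat.cast_add, Nat.cast_one, cb_mul', Nat.add_sub_cancel, mul_assoc]
    have e10 : ∑ i ∈ Finset.range (J + 1), cb (s - k) i *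
        ((s - k - i) * β (k + 1 + i) (R ^ i * (pderiv ℂ m F * q))) =
        (s - k) * ∑ i ∈ Finset.range (J + 1), cb (s - k - 1) i *
          β (k + 1 + i) (R ^ i * (pderiv ℂ m F * q)) := by
      rw [Finset.mul_sum]
      refine Finset.sum_congr rfl fun i _ => ?_
      rw [← mul_assoc, cb_mul, mul_assoc]
    simp only [mul_sub, mul_neg, Finset.sum_sub_distrib, Finset.sum_neg_distrib, mul_add,
      Finset.sum_add_distrib]
    rw [e8, e10]
    ring
  · intro q hq
    change pS R s β 0 (I 0) q = β 0 q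
    rw [← key 0 (I 0 + 1) (Nat.le_succ _), pS_apply, Finset.sum_range_succ', Finset.sum_eq_zero]
    · rw [cb_zero]
      simp
    · intro i _
      rw [zero_add, hq (i + 1) (Nat.le_add_left 1 i), mul_zero]

end Pool.Agent.J4H28.YO
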