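import Pool.Agent.J4H28.YO.Wh
import Pool.Agent.N138.RF.R6

set_option autoImplicit false
set_option linter.unusedSectionVars false

/-! # Semi-weighted-homogeneous power series -/

namespace Pool.Agent.J4H28.YO

open Pool.Agent.J4H50.YO Pool.Agent.J4H50.TF MvPowerSeries

/-- `(-1) ^ k s (s - 1) ⋯ (s - k + 1)` -/
noncomputable def pk (s : ℂ) (k : ℕ) : ℂ := ∏ j ∈ Finset.range k, (-(s - j))

theorem pk_succ (s : ℂ) (k : ℕ) : pk s (k + 1) = pk s k * (-(s - k)) := Finset.prod_range_succ _ _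

theorem pk_ne {s : ℂ} (hs : ∀ m : ℕ, s ≠ m) (k : ℕ) : pk s k ≠ 0 := by
  refine Finset.prod_ne_zero_iff.2 fun j _ => ?_
  rw [neg_ne_zero, sub_ne_zero]
  exact hs j

theorem sw_ne {σ : Type} [Fintype σ] [Nonempty σ] (w : σ → ℕ) (D : ℕ) (hw : ∀ i, 0 < w i)
    (hD : 0 < D) (m : ℕ) : (-(((∑ i, w i : ℕ) : ℂ) / (D : ℂ))) ≠ m := by
  intro hm
  have hn : 0 < ∑ i, w i := Finset.sum_pos (fun i _ => hw i) Finset.univ_nonempty
  have hD' : (D : ℂ) ≠ 0 := Nat.cast_ne_zero.2 hD.ne'
  have h1 : ((∑ i, w i + m * D : ℕ) : ℂ) = 0 := by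
    rw [neg_eq_iff_eq_neg, div_eq_iff hD'] at hm
    push_cast at hm ⊢
    rw [hm]
    ring
  have h2 : ∑ i, w i + m * D = 0 := Nat.cast_eq_zero.1 h1
  omega

theorem t_SW : S_SW := by
  intro σ _ _ G0 g w D hw hD hG hg h0 h1 hz
  have hD' : (D : ℂ) ≠ 0 := Nat.cast_ne_zero.2 hD.ne'
  have hpc : ∀ i, MvPolynomial.constantCoeff (MvPolynomial.pderiv i G0) = 0 := by
    intro i
    rw [MvPolynomial.constantCoeff_eq, MvPolynomial.coeff_pderiv, zero_add, h0, zero_mul]
  obtain ⟨L, hL, hL1⟩ := Pool.Agent.N138.SU.W4b.t Pool.Agent.N138.SU.W4a.t G0 w D hw hD hG hpc hz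
  set s : ℂ := -(((∑ i, w i : ℕ) : ℂ) / (D : ℂ)) with hs
  have hne : ∀ m : ℕ, s ≠ m := sw_ne w D hw hD
  constructor
  · refine NV_of_wh hw G0 hG g hg s (fun k => (pk s k)⁻¹ • L) ?_ ?_ ?_
    · intro k q hq
      change (pk s (k + 1))⁻¹ • L (G0 * q) = (pk s k)⁻¹ • L q
      have h2 := Pool.Agent.N138.RF.R6.euler hG L hL hq
      have h3 : L (G0 * q) = -(s - k) * L q := by
        apply mul_left_cancel₀ hD'
        rw [h2, hs]
        push_cast
        field_simp
        ring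
      have h4 : s - k ≠ 0 := sub_ne_zero.2 (hne k)
      have h5 := pk_ne hne k
      rw [h3, pk_succ, smul_eq_mul, smul_eq_mul]
      field_simp
    · intro k i q _
      change (pk s k)⁻¹ • L (MvPolynomial.pderiv i q) +
        (s - k) * ((pk s (k + 1))⁻¹ • L (MvPolynomial.pderiv i G0 * q)) = 0
      have h4 : s - k ≠ 0 := sub_ne_zero.2 (hne k)
      have h5 := pk_ne hne k
      rw [hL, pk_succ, smul_eq_mul, smul_eq_mul]
      field_simp
      ring
    · change (pk s 0)⁻¹ • L 1 = 1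
      rw [hL1, pk, Finset.prod_range_zero, inv_one, one_smul]
  · intro x hx
    have h2 : x = 0 ∨ ∃ i, x = Finsupp.single i 1 := by
      rcases Nat.lt_or_ge x.degree 1 with h | h
      · left
        rw [← Finsupp.degree_eq_zero_iff]
        omega
      · right
        have h3 : x.degree = 1 := le_antisymm hx h
        exact (Finsupp.sum_eq_one_iff _).1 h3
    rcases h2 with rfl | ⟨i, rfl⟩
    · rw [map_add]
      have h3 : coeff (0 : σ →₀ ℕ) (G0 : MvPowerSeries σ ℂ) = 0 := by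
        rw [MvPolynomial.coeff_coe]
        by_contra hne
        have h4 := hG hne
        rw [map_zero] at h4
        omega
      have h4 : coeff (0 : σ →₀ ℕ) g = 0 := by
        by_contra hne
        have h4 := hg 0 hne
        rw [map_zero] at h4
        omega
      rw [h3, h4, add_zero]
    · rw [map_add, MvPolynomial.coeff_coe, h0, h1, add_zero]

end Pool.Agent.J4H28.YO
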