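import Pool.Agent.J4H28.YO.Pt

set_option autoImplicit false
set_option linter.unusedSectionVars false

/-! # De Rham functionals for power series with a weighted homogeneous leading part -/

namespace Pool.Agent.J4H28.YO

open Pool.Agent.J4H50.YO Pool.Agent.J4H50.TF MvPowerSeries

section wh

variable {σ : Type} [Finite σ] {w : σ → ℕ}

theorem degree_le_weight (hw : ∀ i, 0 < w i) (x : σ →₀ ℕ) : x.degree ≤ Finsupp.weight w x := by
  have := Fintype.ofFinite σ
  rw [Finsupp.degree_eq_sum, Finsupp.weight_apply, Finsupp.sum_fintype _ _ (by simp)]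
  refine Finset.sum_le_sum fun i _ => ?_
  rw [smul_eq_mul]
  exact Nat.le_mul_of_pos_right _ (hw i)

/-- the component of weight `M` of a power series -/
noncomputable def wc (w : σ → ℕ) (M : ℕ) : MvPowerSeries σ ℂ →ₗ[ℂ] MvPolynomial σ ℂ :=
  (MvPolynomial.weightedHomogeneousComponent w M).comp (truncTotal (M + 1))

theorem coeff_wc (hw : ∀ i, 0 < w i) (M : ℕ) (h : MvPowerSeries σ ℂ) (x : σ →₀ ℕ) :
    (wc w M h).coeff x = if Finsupp.weight w x = M then coeff x h else 0 := by
  classical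
  change (MvPolynomial.weightedHomogeneousComponent w M (truncTotal (M + 1) h)).coeff x = _
  rw [MvPolynomial.coeff_weightedHomogeneousComponent]
  split_ifs with h1
  · apply coeff_truncTotal
    have := degree_le_weight hw x
    omega
  · rfl

theorem wc_wh (w : σ → ℕ) (M : ℕ) (h : MvPowerSeries σ ℂ) :
    (wc w M h).IsWeightedHomogeneous w M :=
  MvPolynomial.weightedHomogeneousComponent_isWeightedHomogeneous _ _

theorem wc_mul (hw : ∀ i, 0 < w i) (P : MvPolynomial σ ℂ) (c D : ℕ)
    (hP : ∀ x, P.coeff x ≠ 0 → Finsupp.weight w x + c = D) (M M' : ℕ) (hM : D + M' = M + c)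
    (h : MvPowerSeries σ ℂ) : wc w M ((P : MvPowerSeries σ ℂ) * h) = P * wc w M' h := by
  classical
  ext x
  rw [coeff_wc hw, MvPolynomial.coeff_mul]
  split_ifs with h1
  · rw [coeff_mul]
    refine Finset.sum_congr rfl fun p hp => ?_
    rw [Finset.HasAntidiagonal.mem_antidiagonal] at hp
    rw [MvPolynomial.coeff_coe, coeff_wc hw]
    by_cases h2 : P.coeff p.1 = 0
    · rw [h2, zero_mul, zero_mul]
    · rw [if_pos]
      have h3 := hP _ h2
      have h4 : Finsupp.weight w x = Finsupp.weight w p.1 + Finsupp.weight w p.2 := by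
        rw [← hp, map_add]
      omega
  · symm
    refine Finset.sum_eq_zero fun p hp => ?_
    rw [Finset.HasAntidiagonal.mem_antidiagonal] at hp
    by_cases h2 : P.coeff p.1 = 0
    · rw [h2, zero_mul]
    · rw [coeff_wc hw, if_neg, mul_zero]
      intro h3
      apply h1
      have h4 := hP _ h2
      rw [← hp, map_add]
      omega

theorem wc_pd (hw : ∀ i, 0 < w i) (i : σ) (M : ℕ) (h : MvPowerSeries σ ℂ) :
    wc w M (pderiv ℂ i h) = MvPolynomial.pderiv i (wc w (M + w i) h) := by
  ext x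
  rw [coeff_wc hw, MvPolynomial.coeff_pderiv, coeff_wc hw, coeff_pderiv]
  have h1 : Finsupp.weight w (x + Finsupp.single i 1) = Finsupp.weight w x + w i := by
    rw [map_add, Finsupp.weight_single, one_smul]
  rw [h1]
  split_ifs with h2 h3 h3
  · rfl
  · omega
  · omega
  · rw [zero_mul]

theorem OrdF.one_mul' {k l : ℕ} {f g : MvPowerSeries σ ℂ} (hf : OrdF w k f) (hg : OrdF w l g) :
    OrdF w (k + l) (f * g) := by
  classical
  intro x hx
  rw [coeff_mul] at hx
  obtain ⟨p, hp, h1⟩ := Finset.exists_ne_zero_of_sum_ne_zero hx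
  rw [Finset.HasAntidiagonal.mem_antidiagonal] at hp
  have h2 := hf p.1 (left_ne_zero_of_mul h1)
  have h3 := hg p.2 (right_ne_zero_of_mul h1)
  rw [← hp, map_add]
  omega

theorem OrdF.pow' {k : ℕ} {f : MvPowerSeries σ ℂ} (hf : OrdF w k f) (i : ℕ) :
    OrdF w (i * k) (f ^ i) := by
  induction i with
  | zero => exact fun _ _ => by rw [zero_mul]; exact Nat.zero_le _
  | succ i ih =>
    rw [pow_succ, Nat.succ_mul]
    exact OrdF.one_mul' ih hf

theorem wc_ord (hw : ∀ i, 0 < w i) {k M : ℕ} {f : MvPowerSeries σ ℂ} (hf : OrdF w k f)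
    (h : M < k) : wc w M f = 0 := by
  ext x
  rw [coeff_wc hw, MvPolynomial.coeff_zero]
  split_ifs with h1
  · by_contra hcon
    have := hf x hcon
    omega
  · rfl

theorem wc_zero (hw : ∀ i, 0 < w i) (q : MvPowerSeries σ ℂ) :
    wc w 0 q = MvPolynomial.C (constantCoeff q) := by
  classical
  ext x
  rw [coeff_wc hw, MvPolynomial.coeff_C]
  by_cases h : x = 0
  · subst h
    rw [map_zero, if_pos rfl, if_pos rfl]
    rfl
  · rw [if_neg, if_neg (Ne.symm h)]
    intro h1
    apply h
    have h2 := degree_le_weight hw x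
    rw [h1] at h2
    rw [← Finsupp.degree_eq_zero_iff]
    omega

/-- the general construction of functionals for weighted homogeneous leading terms -/
theorem NV_of_wh (hw : ∀ i, 0 < w i) {D : ℕ} (G0 : MvPolynomial σ ℂ)
    (hG : G0.IsWeightedHomogeneous w D) (R : MvPowerSeries σ ℂ) (hR : OrdF w (D + 1) R) (s : ℂ)
    (Λ : ℕ → MvPolynomial σ ℂ →ₗ[ℂ] ℂ)
    (h1 : ∀ k q, MvPolynomial.IsWeightedHomogeneous w q (D * k) → Λ (k + 1) (G0 * q) = Λ k q)
    (h2 : ∀ k i q, MvPolynomial.IsWeightedHomogeneous w q (D * k + w i) →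
      Λ k (MvPolynomial.pderiv i q) + (s - k) * Λ (k + 1) (MvPolynomial.pderiv i G0 * q) = 0)
    (h3 : Λ 0 1 = 1) : NV ((G0 : MvPowerSeries σ ℂ) + R) s := by
  have hG' : ∀ x, G0.coeff x ≠ 0 → Finsupp.weight w x + 0 = D := fun x hx => hG hx
  have hGi : ∀ i x, (MvPolynomial.pderiv i G0).coeff x ≠ 0 → Finsupp.weight w x + w i = D := by
    intro i x hx
    rw [MvPolynomial.coeff_pderiv] at hx
    have h4 := hG (left_ne_zero_of_mul hx)
    rw [map_add, Finsupp.weight_single, one_smul] at h4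
    exact h4
  let β : ℕ → MvPowerSeries σ ℂ →ₗ[ℂ] ℂ := fun k => (Λ k).comp (wc w (D * k))
  have hβ : ∀ k q, β k q = Λ k (wc w (D * k) q) := fun _ _ => rfl
  have hDR : DR s (G0 : MvPowerSeries σ ℂ) β := by
    refine ⟨?_, ?_, ?_⟩
    · intro k
      refine ⟨D * k + 1, fun q hq => ?_⟩
      rw [hβ]
      have h4 : wc w (D * k) q = 0 := by
        ext x
        rw [coeff_wc hw, MvPolynomial.coeff_zero]
        split_ifs with h5
        · apply hq
          have := degree_le_weight hw x
          omega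
        · rfl
      rw [h4, map_zero]
    · intro k q
      rw [hβ, hβ, wc_mul hw G0 0 D hG' (D * (k + 1)) (D * k) (by ring), h1 _ _ (wc_wh _ _ _)]
    · intro k i q
      rw [hβ, hβ, wc_pd hw, pderiv_coe, wc_mul hw _ (w i) D (hGi i) (D * (k + 1)) (D * k + w i)
        (by ring), h2 _ _ _ (wc_wh _ _ _)]
  have hz : ∀ k i, D * k < i → ∀ q, β (k + i) (R ^ i * q) = 0 := by
    intro k i hi q
    have h4 : OrdF w (i * (D + 1) + 0) (R ^ i * q) :=
      OrdF.one_mul' (OrdF.pow' hR i) (fun _ _ => Nat.zero_le _)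
    rw [hβ, wc_ord hw h4, map_zero]
    have h5 : D * (k + i) = D * k + D * i := by ring
    have h6 : i * (D + 1) = D * i + i := by ring
    omega
  obtain ⟨α, hα, hα0⟩ := t_PT (G0 : MvPowerSeries σ ℂ) R s β hDR
    (fun k => ⟨D * k + 1, fun i hi q => hz k i (by omega) q⟩)
  refine ⟨α, hα, fun q => ?_⟩
  rw [hα0 q fun i hi => by
    have := hz 0 i (by omega) q
    rwa [zero_add] at this]
  rw [hβ, mul_zero, wc_zero hw]
  have h4 : (MvPolynomial.C (constantCoeff q) : MvPolynomial σ ℂ) =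
      (constantCoeff q) • (1 : MvPolynomial σ ℂ) := by
    rw [MvPolynomial.smul_eq_C_mul, mul_one]
  rw [h4, map_smul, h3, smul_eq_mul, mul_one]

end wh

end Pool.Agent.J4H28.YO
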